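import Mathlib
import Pool.Agent.Work.MP_7b186b_nt.CU.HD

set_option autoImplicit false

/-!
Random unitary matrices as a model for the zeros of the zeta function: a Poincaré inequality for
symmetric polynomials which vanish when an eigenvalue equals `1`. It bounds the power of Hall's
method (Wirtinger inequalities, moments of all orders) for large gaps.
-/

namespace Pool.Agent.Results.MP_7b186b_nt.HallMethodLimit

open Pool.Agent.Work.MP_7b186b_nt.CU

theorem result (N : ℕ) (F : MvPolynomial (Fin N) ℂ) (hs : F.IsSymmetric)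
    (hz : ∀ θ : Fin N → ℝ, (∃ i, θ i = 0) → ev F θ = 0) (c : ℝ) :
    (∀ (θ : Fin N → ℝ) (s : ℝ),
      HasDerivAt (fun s => e1 (-(c * s)) * ev F (fun i => θ i + s))
        (2 * Real.pi * Complex.I * (e1 (-(c * s)) *
          ev (tw F.totalDegree (fun d => (d : ℝ) - c) F) (fun i => θ i + s))) s) ∧
    (∀ (k : ℕ) (D : ℝ), 1 ≤ k → 0 < D → 25 * D ≤ 8 * N → (k : ℝ) * F.totalDegree ≤ D * N →
      2 * k * (N : ℝ) ^ (2 * k) * cue N (fun θ => ‖ev F θ‖ ^ (2 * k)) ≤
        9 * (25 * Real.pi * D / 8) ^ (2 * k) *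
          cue N (fun θ => ‖ev (tw F.totalDegree (fun d => (d : ℝ) - c) F) θ‖ ^ (2 * k))) :=
  ⟨fun θ s => path_deriv F.totalDegree F le_rfl c θ s,
    fun k D hk hD hDN hd => hall_limit D c hD hDN k hk F hs hd hz⟩

end Pool.Agent.Results.MP_7b186b_nt.HallMethodLimit
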