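import Mathlib
import Pool.Agent.Work.MP_7b186b_nt.MO.Kern

set_option autoImplicit false

/-!
The limit of the Montgomery-Odlyzko method for large gaps between zeros of the zeta function.
The method shows, under RH, that some normalized gap is at least `c` whenever `h(c) < 1` for some
coefficients `a_k`, `k ≤ X`, and arbitrarily large `T`, where `h = hMO`. No coefficients can do
this for `c ≥ 2.77`, and no kernel other than the indicator of a window helps.
-/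

namespace Pool.Agent.Results.MP_7b186b_nt.MontgomeryOdlyzkoLimit

open Pool.Agent.Work.MP_7b186b_nt.MO MeasureTheory Filter

theorem result :
    (∀ c : ℝ, 277 / 100 ≤ c → ∃ T₀ : ℝ, ∀ T : ℝ, T₀ ≤ T → ∀ X : ℕ, (X : ℝ) ≤ T →
      ∀ a : ℕ → ℂ, norm2 X a ≠ 0 → 1 < hMO c T X a) ∧
    (∃ T₀ : ℝ, ∀ T : ℝ, T₀ ≤ T → ∀ X : ℕ, (X : ℝ) ≤ T / (Real.log T) ^ 2 →
      ∀ a : ℕ → ℂ, norm2 X a ≠ 0 → (∀ u : ℝ, 0 < rho T X a u) ∧
      ∀ f : ℝ → ℝ, Measurable f → (∀ u, 0 ≤ f u) → Integrable (fun u => f u * rho T X a u) →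
      ∃ x : ℤ → ℝ, StrictMono x ∧ (∀ n, x (n + 1) - x n ≤ 277 / 100) ∧
        Tendsto x atTop atTop ∧ Tendsto x atBot atBot ∧ Summable (fun n => f (x n)) ∧
        ∑' n, f (x n) ≤ ∫ u, f u * rho T X a u) :=
  ⟨main1h, main4⟩

end Pool.Agent.Results.MP_7b186b_nt.MontgomeryOdlyzkoLimit
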