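import Mathlib
import Pool.Agent.Work.MP_7b186b_nt.CU.Final

set_option autoImplicit false

/-!
Random unitary matrices as a model for the zeros of the zeta function: the exact strength, up to
`o(D)`, of polynomial weights of degree `D N` for detecting large gaps, and a bound for all of
them.
-/

namespace Pool.Agent.Results.MP_7b186b_nt.PolynomialWeightLimit

open Pool.Agent.Work.MP_7b186b_nt.CU

theorem result :
    (∀ (N : ℕ) (G : MvPolynomial (Fin N) ℂ) (a L : ℝ), G.IsSymmetric → 0 ≤ L → L ≤ 1 →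
      |cue N (fun θ => ‖ev G θ‖ ^ 2 * (cnt a L θ - N * L))| ≤
        Real.sqrt (2 * G.totalDegree * L * (1 - L)) * cue N (fun θ => ‖ev G θ‖ ^ 2)) ∧
    (∀ (N : ℕ) (D : ℝ) (G : MvPolynomial (Fin N) ℂ) (a L : ℝ), 0 ≤ D → G.IsSymmetric → G ≠ 0 →
      (G.totalDegree : ℝ) ≤ D * N → 0 ≤ L → L ≤ 1 →
      0 < cue N (fun θ => ‖ev G θ‖ ^ 2) ∧
      (cue N (fun θ => ‖ev G θ‖ ^ 2 * cnt a L θ) < cue N (fun θ => ‖ev G θ‖ ^ 2) →
        N * L < D + 1 + Real.sqrt (D ^ 2 + 2 * D)) ∧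
      (cue N (fun θ => ‖ev G θ‖ ^ 2) < cue N (fun θ => ‖ev G θ‖ ^ 2 * cnt a L θ) →
        D + 1 - Real.sqrt (D ^ 2 + 2 * D) < N * L)) ∧
    (∀ δ : ℝ, 0 < δ → δ ≤ 1 → ∃ D₀ C : ℝ, ∀ D : ℝ, D₀ ≤ D → ∀ N : ℕ, C * D ≤ N →
      ∃ G : MvPolynomial (Fin N) ℂ, G.IsSymmetric ∧ G ≠ 0 ∧ (G.totalDegree : ℝ) ≤ D * N ∧
        cue N (fun θ => ‖ev G θ‖ ^ 2 * cnt (-((2 - δ) * D / N / 2)) ((2 - δ) * D / N) θ) <
          cue N (fun θ => ‖ev G θ‖ ^ 2)) := by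
  refine ⟨fun N G a L hs hL0 hL1 => cue_bound N G.totalDegree G hs le_rfl a L hL0 hL1, ?_,
    fun δ hδ0 hδ1 => lower δ hδ0 hδ1⟩
  intro N D G a L hD hs hG hd hL0 hL1
  exact ⟨cue_pos G hG, upper N D hD G hs hG hd a L hL0 hL1⟩

end Pool.Agent.Results.MP_7b186b_nt.PolynomialWeightLimit
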