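import Mathlib
import Pool.Agent.Work.MP_7b186b_nt.MO.Main2
import Pool.Agent.Work.MP_7b186b_nt.MO.Main3

set_option autoImplicit false

/-!
The exact strength of the Montgomery-Odlyzko method for sums of `r` consecutive gaps, up to
`o(√r)`: `r ± √2 √r`.
-/

namespace Pool.Agent.Results.MP_7b186b_nt.RGapLimits

open Pool.Agent.Work.MP_7b186b_nt.MO

theorem result :
    (∀ r : ℕ, 1 ≤ r →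
      (∀ c : ℝ, (r : ℝ) + 1 + Real.sqrt (2 * r + 1) ≤ c → ∃ T₀ : ℝ, ∀ T : ℝ, T₀ ≤ T →
        ∀ X : ℕ, (X : ℝ) ≤ T → ∀ a : ℕ → ℂ, norm2 X a ≠ 0 → (r : ℝ) < hMO c T X a) ∧
      (∀ c : ℝ, 0 < c → c ≤ (r : ℝ) + 1 - Real.sqrt (2 * r + 1) → ∃ T₀ : ℝ, ∀ T : ℝ, T₀ ≤ T →
        ∀ X : ℕ, (X : ℝ) ≤ T → ∀ a : ℕ → ℂ, norm2 X a ≠ 0 → hMO c T X a < r)) ∧
    (∀ ε : ℝ, 0 < ε → ε < 1 → ∃ r₀ : ℕ, ∀ r : ℕ, r₀ ≤ r →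
      ∃ δ : ℝ, 0 < δ ∧ ∃ T₀ : ℝ, ∀ T : ℝ, T₀ ≤ T → ∃ X : ℕ, (X : ℝ) ≤ T ^ (1 - δ) ∧
        (∃ a : ℕ → ℂ, norm2 X a ≠ 0 ∧
          hMO ((r : ℝ) + (Real.sqrt 2 - ε) * Real.sqrt r) T X a < (r : ℝ) - δ) ∧
        (∃ a : ℕ → ℂ, norm2 X a ≠ 0 ∧
          (r : ℝ) + δ < hMO ((r : ℝ) - (Real.sqrt 2 - ε) * Real.sqrt r) T X a)) :=
  ⟨main2, main3⟩

end Pool.Agent.Results.MP_7b186b_nt.RGapLimits
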